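import Pool.Agent.Run7.h24.EC.MC

/-! Project EC (helper295), piece CNT. -/

namespace Run7.h24.EC

open Finset Run7.h295.EC

theorem mem_ins {V : Type} [Fintype V] (G : SimpleGraph V) (X : Finset V) (e : Sym2 V) :
    e ∈ ins G X ↔ e ∈ G.edgeSet ∧ ∀ v ∈ e, v ∈ X := by
  simp [ins, mem_EE]

theorem mem_btw {V : Type} [Fintype V] (G : SimpleGraph V) (X Y : Finset V) (e : Sym2 V) :
    e ∈ btw G X Y ↔ e ∈ G.edgeSet ∧ ∃ x ∈ X, ∃ y ∈ Y, e = s(x, y) := by
  simp [Run7.h295.EC.btw, mem_EE]

/-- an edge at a vertex of a member of the barrier -/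
theorem mem_loc {V : Type} [Fintype V] [DecidableEq V] (G : SimpleGraph V) (W : Finset V)
    (F : Finset (Finset V)) (hB : Barrier G W F) (O : Finset V) (hO : O ∈ F) (x : V) (hx : x ∈ O)
    (e : Sym2 V) (he : e ∈ G.edgeSet) (hxe : x ∈ e) : e ∈ ins G O ∪ btw G O W := by
  obtain ⟨y, rfl⟩ := hxe
  have hadj : G.Adj x y := he
  rcases hB.2.2.2 O hO x hx y hadj with h | h
  · refine Finset.mem_union_left _ ((mem_ins _ _ _).2 ⟨he, ?_⟩)
    intro v hv
    rcases Sym2.mem_iff.1 hv with rfl | rfl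
    · exact hx
    · exact h
  · exact Finset.mem_union_right _ ((mem_btw _ _ _ _).2 ⟨he, x, hx, y, h, rfl⟩)

theorem t_CNT : S_CNT := by
  intro V _ _ G W F N hd hB hW hW0 hcov hN
  set L : Finset (Finset (Sym2 V)) :=
    (EE G).powerset.filter (fun S => ∀ v, v ∉ W → ∃ e ∈ S, v ∈ e) with hL
  have memL : ∀ S, S ∈ L ↔ (∀ e ∈ S, e ∈ G.edgeSet) ∧ ∀ v, v ∉ W → ∃ e ∈ S, v ∈ e := by
    intro S
    rw [hL, mem_filter, mem_powerset]
    constructor
    · rintro ⟨h1, h2⟩
      exact ⟨fun e he => (mem_EE G e).1 (h1 he), h2⟩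
    · rintro ⟨h1, h2⟩
      exact ⟨fun e he => (mem_EE G e).2 (h1 e he), h2⟩
  -- step 1
  have h1 : L.card ≤ ∏ O ∈ F, N O := by
    have hle : L.card ≤ (F.pi (fun O => (ins G O ∪ btw G O W).powerset.filter
        (fun X => ∀ v ∈ O, ∃ e ∈ X, v ∈ e))).card := by
      refine Finset.card_le_card_of_injOn
        (fun S => fun (O : Finset V) (_ : O ∈ F) => S ∩ (ins G O ∪ btw G O W)) ?_ ?_
      · intro S hS
        have hS' := (memL S).1 hS
        rw [Finset.mem_coe, Finset.mem_pi]
        intro O hO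
        rw [mem_filter, mem_powerset]
        refine ⟨Finset.inter_subset_right, ?_⟩
        intro v hv
        have hvW : v ∉ W := fun h => (Finset.disjoint_left.1 (hB.2.2.1 O hO)) hv h
        obtain ⟨e, he, hve⟩ := hS'.2 v hvW
        exact ⟨e, Finset.mem_inter.2 ⟨he, mem_loc G W F hB O hO v hv e (hS'.1 e he) hve⟩, hve⟩
      · have key : ∀ S ∈ L, ∀ S' ∈ L,
            ((fun S => fun (O : Finset V) (_ : O ∈ F) => S ∩ (ins G O ∪ btw G O W)) S =
             (fun S => fun (O : Finset V) (_ : O ∈ F) => S ∩ (ins G O ∪ btw G O W)) S') →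
            S ⊆ S' := by
          intro S hS S' _ hSS e he
          have heG : e ∈ G.edgeSet := ((memL S).1 hS).1 e he
          have hex : ∃ x, x ∈ e ∧ x ∉ W := by
            by_contra hcon
            push Not at hcon
            have : e ∈ ins G W := (mem_ins _ _ _).2 ⟨heG, hcon⟩
            rw [hW0] at this
            exact absurd this (Finset.notMem_empty _)
          obtain ⟨x, hxe, hxW⟩ := hex
          obtain ⟨O, hO, hxO⟩ := hcov x hxW
          have hloc := mem_loc G W F hB O hO x hxO e heG hxe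
          have h2 : S ∩ (ins G O ∪ btw G O W) = S' ∩ (ins G O ∪ btw G O W) :=
            congrFun (congrFun hSS O) hO
          have h3 : e ∈ S' ∩ (ins G O ∪ btw G O W) := by
            rw [← h2]
            exact Finset.mem_inter.2 ⟨he, hloc⟩
          exact (Finset.mem_inter.1 h3).1
        intro S hS S' hS' hSS
        exact Finset.Subset.antisymm (key S hS S' hS' hSS) (key S' hS' S hS hSS.symm)
    rw [Finset.card_pi] at hle
    exact hle.trans (Finset.prod_le_prod' hN)
  -- step 2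
  refine lt_of_lt_of_le (Finset.card_lt_card ?_) h1
  rw [Finset.ssubset_iff_of_subset]
  · obtain ⟨w, hw⟩ := hW
    refine ⟨EE G \ inc G w, ?_, ?_⟩
    · rw [memL]
      constructor
      · intro e he
        exact (mem_EE G e).1 (Finset.mem_sdiff.1 he).1
      · intro v hv
        have hvw : v ≠ w := fun h => hv (h ▸ hw)
        have h2 : 1 < (inc G v).card := by
          have := hd v
          unfold dg at this
          omega
        obtain ⟨e, he, hne⟩ := Finset.exists_mem_ne h2 s(v, w)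
        have he' := (mem_inc G v e).1 he
        refine ⟨e, Finset.mem_sdiff.2 ⟨(mem_EE G e).2 he'.1, ?_⟩, he'.2⟩
        intro hew
        exact hne ((Sym2.mem_and_mem_iff hvw).1 ⟨he'.2, ((mem_inc G w e).1 hew).2⟩)
    · rw [mem_covers]
      rintro ⟨_, h⟩
      obtain ⟨e, he, hwe⟩ := h w
      have h3 := Finset.mem_sdiff.1 he
      exact h3.2 ((mem_inc G w e).2 ⟨(mem_EE G e).1 h3.1, hwe⟩)
  · intro S hS
    rw [mem_covers] at hS
    rw [memL]
    exact ⟨hS.1, fun v _ => hS.2 v⟩

end Run7.h24.EC
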