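import Pool.Agent.Run7.h295.EC.Iface

/-! Project EC (helper295), piece MC. -/

namespace Run7.h24.EC

open Finset Run7.h295.EC

theorem mem_EE {V : Type} [Fintype V] (G : SimpleGraph V) (e : Sym2 V) :
    e ∈ EE G ↔ e ∈ G.edgeSet := by
  simp [EE]

theorem mem_inc {V : Type} [Fintype V] (G : SimpleGraph V) (v : V) (e : Sym2 V) :
    e ∈ inc G v ↔ e ∈ G.edgeSet ∧ v ∈ e := by
  simp [inc, mem_EE]

theorem mem_covers {V : Type} [Fintype V] (G : SimpleGraph V) (S : Finset (Sym2 V)) :
    S ∈ covers G ↔ (∀ e ∈ S, e ∈ G.edgeSet) ∧ ∀ v, ∃ e ∈ S, v ∈ e := by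
  classical
  simp only [covers, mem_filter, mem_powerset]
  constructor
  · rintro ⟨h1, h2⟩
    exact ⟨fun e he => (mem_EE G e).1 (h1 he), h2⟩
  · rintro ⟨h1, h2⟩
    exact ⟨fun e he => (mem_EE G e).2 (h1 e he), h2⟩

theorem t_MC : S_MC := by
  intro V _ G l U μ hd hU hμ
  classical
  have hg : ∀ u : V, ∃ e, e ∈ G.edgeSet ∧ u ∈ e := by
    intro u
    have h := hd u
    unfold dg at h
    obtain ⟨e, he⟩ := Finset.card_pos.1 (by omega : 0 < (inc G u).card)
    exact ⟨e, (mem_inc G u e).1 he⟩
  choose g hg1 hg2 using hg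
  set A : Finset (Sym2 V) := Uᶜ.image (fun x => s(x, μ x)) with hA
  set B : Finset (Sym2 V) := U.image g with hB
  refine ⟨A ∪ B, ?_, ?_⟩
  · rw [mem_covers]
    constructor
    · intro e he
      rcases Finset.mem_union.1 he with h | h
      · rw [hA, Finset.mem_image] at h
        obtain ⟨x, hx, rfl⟩ := h
        rw [Finset.mem_compl] at hx
        exact (hμ x hx).2.2
      · rw [hB, Finset.mem_image] at h
        obtain ⟨x, hx, rfl⟩ := h
        exact hg1 x
    · intro v
      by_cases hv : v ∈ U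
      · exact ⟨g v, Finset.mem_union_right _ (Finset.mem_image_of_mem _ hv), hg2 v⟩
      · exact ⟨s(v, μ v), Finset.mem_union_left _
          (Finset.mem_image.2 ⟨v, Finset.mem_compl.2 hv, rfl⟩), Sym2.mem_mk_left _ _⟩
  · have hB' : B.card ≤ U.card := Finset.card_image_le
    have hA' : 2 * A.card ≤ (Uᶜ : Finset V).card := by
      refine Finset.mul_card_image_le_card (Uᶜ : Finset V) 2 ?_
      intro e he
      obtain ⟨x, hx, rfl⟩ := Finset.mem_image.1 he
      have hx' := Finset.mem_compl.1 hx
      obtain ⟨h1, h2, h3⟩ := hμ x hx'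
      have hne : x ≠ μ x := G.ne_of_adj h3
      have hsub : ({x, μ x} : Finset V) ⊆ (Uᶜ : Finset V).filter (fun y => s(y, μ y) = s(x, μ x)) := by
        intro y hy
        rw [Finset.mem_insert, Finset.mem_singleton] at hy
        rw [Finset.mem_filter, Finset.mem_compl]
        rcases hy with rfl | rfl
        · exact ⟨hx', rfl⟩
        · exact ⟨h1, by rw [h2]; exact Sym2.eq_swap⟩
      calc 2 = ({x, μ x} : Finset V).card := (Finset.card_pair hne).symm
        _ ≤ _ := Finset.card_le_card hsub
    have hc : (Uᶜ : Finset V).card + U.card = Fintype.card V := by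
      rw [Finset.card_compl]
      have := Finset.card_le_univ U
      omega
    have hu := Finset.card_union_le A B
    omega

end Run7.h24.EC
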