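import Pool.Agent.Run7.h295.EC.Iface

/-! Project EC (helper295), piece POLY. -/

namespace Run7.h24.EC

open Finset Polynomial Run7.h295.EC

/-- the shape of a complex monic polynomial with root zero and at most two roots -/
theorem shape (P : ℂ[X]) (hm : P.Monic) (h0 : P.coeff 0 = 0)
    (hc : P.roots.toFinset.card ≤ 2) :
    ∃ s k : ℕ, ∃ β : ℂ, 1 ≤ s ∧ s + k = P.natDegree ∧ P = X ^ s * (X + C β) ^ k := by
  classical
  have hne : P ≠ 0 := hm.ne_zero
  have h0r : (0 : ℂ) ∈ P.roots := by
    rw [mem_roots hne, IsRoot, ← coeff_zero_eq_eval_zero, h0]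
  have hcard : (P.roots.toFinset.erase 0).card ≤ 1 := by
    rw [Finset.card_erase_of_mem (Multiset.mem_toFinset.2 h0r)]
    omega
  obtain ⟨r, hr⟩ := Finset.card_le_one_iff_subset_singleton.1 hcard
  have hprod := (IsAlgClosed.splits P).eq_prod_roots_of_monic hm
  have hsplit : P.roots = P.roots.filter (fun z => z = 0) + P.roots.filter (fun z => ¬ z = 0) :=
    (Multiset.filter_add_not _ _).symm
  have hA : P.roots.filter (fun z => z = 0) = Multiset.replicate (P.roots.filter (fun z => z = 0)).card 0 := by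
    rw [Multiset.eq_replicate_card]
    intro b hb
    exact (Multiset.mem_filter.1 hb).2
  have hB : P.roots.filter (fun z => ¬ z = 0) =
      Multiset.replicate (P.roots.filter (fun z => ¬ z = 0)).card r := by
    rw [Multiset.eq_replicate_card]
    intro b hb
    have hb' := Multiset.mem_filter.1 hb
    have : b ∈ P.roots.toFinset.erase 0 :=
      Finset.mem_erase.2 ⟨hb'.2, Multiset.mem_toFinset.2 hb'.1⟩
    exact Finset.mem_singleton.1 (hr this)
  set s := (P.roots.filter (fun z => z = 0)).card with hs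
  set k := (P.roots.filter (fun z => ¬ z = 0)).card with hk
  refine ⟨s, k, -r, ?_, ?_, ?_⟩
  · rw [hs]
    exact Multiset.card_pos_iff_exists_mem.2 ⟨0, Multiset.mem_filter.2 ⟨h0r, rfl⟩⟩
  · rw [← IsAlgClosed.card_roots_eq_natDegree, hsplit, Multiset.card_add]
  · rw [hprod]
    conv_lhs => rw [hsplit]
    rw [hA, hB, Multiset.map_add, Multiset.prod_add, Multiset.map_replicate, Multiset.map_replicate,
      Multiset.prod_replicate, Multiset.prod_replicate]
    simp [sub_eq_add_neg]

theorem t_POLY : S_POLY := by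
  intro m c hm2 hc0 hcm hcm1 hroots
  set P : ℂ[X] := ∑ i ∈ Finset.range (m + 1), Polynomial.C (c i : ℂ) * Polynomial.X ^ i with hP
  have hcoeff : ∀ j, P.coeff j = if j ≤ m then (c j : ℂ) else 0 := by
    intro j
    rw [hP, finset_sum_coeff]
    simp only [coeff_C_mul_X_pow]
    rw [Finset.sum_ite_eq]
    simp [Nat.lt_succ_iff]
  have hdeg : P.natDegree ≤ m := by
    rw [natDegree_le_iff_coeff_eq_zero]
    intro j hj
    rw [hcoeff, if_neg (by omega)]
  have hcoefm : P.coeff m = 1 := by rw [hcoeff, if_pos le_rfl, hcm]; norm_num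
  have hmonic : P.Monic := monic_of_natDegree_le_of_coeff_eq_one m hdeg hcoefm
  have hdeg' : P.natDegree = m :=
    natDegree_eq_of_le_of_coeff_ne_zero hdeg (by rw [hcoefm]; exact one_ne_zero)
  obtain ⟨s, k, β, hs, hsk, hPs⟩ := shape P hmonic (by rw [hcoeff, if_pos (by omega), hc0]; norm_num)
    hroots
  rw [hdeg'] at hsk
  have hco : ∀ j, j ≤ m → (c j : ℂ) = if s ≤ j then β ^ (k - (j - s)) * (k.choose (j - s) : ℂ) else 0 := by
    intro j hj
    have h := hcoeff j
    rw [if_pos hj, hPs, coeff_X_pow_mul', coeff_X_add_C_pow] at h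
    exact h.symm
  have hk : 1 ≤ k := by
    by_contra hk
    have hk0 : k = 0 := by omega
    have h := hco (m - 1) (by omega)
    rw [if_neg (by omega), hcm1] at h
    have : (m : ℂ) ≠ 0 := by exact_mod_cast (by omega : m ≠ 0)
    exact this h
  have hβ1 : (m : ℂ) = β * k := by
    have h := hco (m - 1) (by omega)
    rw [if_pos (by omega), hcm1, show k - (m - 1 - s) = 1 by omega,
      show m - 1 - s = k - 1 by omega, Nat.choose_symm (by omega : 1 ≤ k), Nat.choose_one_right,
      pow_one] at h
    exact h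
  have hβs : (c s : ℂ) = β ^ k := by
    have h := hco s (by omega)
    rw [if_pos le_rfl] at h
    simpa using h
  have hdvd : k ∣ m := by
    have h : ((m ^ k : ℕ) : ℂ) = ((k ^ k * c s : ℕ) : ℂ) := by
      push_cast
      rw [hβ1, hβs]
      ring
    have h' : m ^ k = k ^ k * c s := by exact_mod_cast h
    exact (Nat.pow_dvd_pow_iff (by omega)).1 ⟨c s, h'⟩
  obtain ⟨b, hb⟩ := hdvd
  have hkC : (k : ℂ) ≠ 0 := by exact_mod_cast (by omega : k ≠ 0)
  have hβb : β = (b : ℂ) := by
    have h : (b : ℂ) * k = β * k := by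
      rw [← hβ1, hb]
      push_cast
      ring
    exact (mul_right_cancel₀ hkC h).symm
  refine ⟨s, k, b, hs, hk, hsk, by rw [hb]; ring, ?_, ?_, ?_⟩
  · intro i hi
    have h := hco i (by omega)
    rw [if_neg (by omega)] at h
    exact_mod_cast h
  · rcases Nat.lt_or_ge k 2 with hk2 | hk2
    · have hk1 : k = 1 := by omega
      have h := hco (m - 2) (by omega)
      rw [if_neg (by omega)] at h
      have h' : c (m - 2) = 0 := by exact_mod_cast h
      rw [h', hb, hk1]
      simp
    · have h := hco (m - 2) (by omega)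
      rw [if_pos (by omega), show k - (m - 2 - s) = 2 by omega,
        show m - 2 - s = k - 2 by omega, Nat.choose_symm hk2, Nat.cast_choose_two, hβb] at h
      have hbm : b ≤ m := by
        rw [hb]
        exact Nat.le_mul_of_pos_left b (by omega)
      have h2 : ((2 * c (m - 2) : ℕ) : ℂ) = ((m * (m - b) : ℕ) : ℂ) := by
        rw [Nat.cast_mul, Nat.cast_mul, Nat.cast_sub hbm, h, hb]
        push_cast
        ring
      exact_mod_cast h2
  · have h1 : P.eval 1 = ((∑ i ∈ Finset.range (m + 1), c i : ℕ) : ℂ) := by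
      rw [hP, eval_finset_sum]
      simp
    have h2 : P.eval 1 = (((1 + b) ^ k : ℕ) : ℂ) := by
      rw [hPs, hβb]
      simp
    rw [h1] at h2
    exact_mod_cast h2

end Run7.h24.EC
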